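import Mathlib

/-!
# Compactness and eigenfunctions of a bounded symmetric kernel on a finite measure space
-/

set_option autoImplicit false

open MeasureTheory Filter Topology
open scoped ENNReal InnerProductSpace

namespace Pool.Agent.N789.HS

variable {X : Type*} [MeasurableSpace X]

/-- bounded measurable everywhere-defined eigenfunctions of the kernel K -/
def eigSub (ν : Measure X) (K : X → X → ℝ) (C : ℝ) (hK : Measurable (Function.uncurry K))
    (hC : ∀ x y, |K x y| ≤ C) [IsFiniteMeasure ν] (κ : ℂ) : Submodule ℂ (X → ℂ) where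
  carrier := {f | Measurable f ∧ (∃ M : ℝ, ∀ x, ‖f x‖ ≤ M) ∧
    ∀ x, κ * f x = ∫ y, (K x y : ℂ) * f y ∂ν}
  add_mem' := by
    rintro f g ⟨hf1, ⟨M, hM⟩, hf2⟩ ⟨hg1, ⟨N, hN⟩, hg2⟩
    have hint : ∀ (h : X → ℂ) (M : ℝ), Measurable h → (∀ x, ‖h x‖ ≤ M) → ∀ x,
        Integrable (fun y => (K x y : ℂ) * h y) ν := by
      intro h M hm hb x
      refine Integrable.of_bound (C := C * M) ?_ ?_
      · have h1 : Measurable (K x) := hK.comp measurable_prodMk_left
        exact ((Complex.measurable_ofReal.comp h1).mul hm).aestronglyMeasurable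
      · refine Eventually.of_forall fun y => ?_
        rw [norm_mul, Complex.norm_real, Real.norm_eq_abs]
        exact mul_le_mul (hC x y) (hb y) (norm_nonneg _) ((abs_nonneg _).trans (hC x y))
    refine ⟨hf1.add hg1, ⟨M + N, fun x => (norm_add_le _ _).trans (add_le_add (hM x) (hN x))⟩, fun x => ?_⟩
    simp only [Pi.add_apply, mul_add]
    rw [integral_add (hint f M hf1 hM x) (hint g N hg1 hN x), hf2, hg2]
  zero_mem' := by
    refine ⟨measurable_const, ⟨0, fun x => by simp⟩, fun x => by simp⟩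
  smul_mem' := by
    rintro c f ⟨hf1, ⟨M, hM⟩, hf2⟩
    refine ⟨hf1.const_smul c, ⟨‖c‖ * M, fun x => ?_⟩, fun x => ?_⟩
    · simp only [Pi.smul_apply, smul_eq_mul, norm_mul]
      exact mul_le_mul_of_nonneg_left (hM x) (norm_nonneg _)
    · simp only [Pi.smul_apply, smul_eq_mul]
      rw [mul_left_comm, hf2, ← integral_const_mul]
      congr 1
      funext y
      ring

section Kernel

variable (ν : Measure X) [IsFiniteMeasure ν] (K : X → X → ℝ) {C : ℝ}

/-- the function `y ↦ K x y`, complex-valued -/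
def kf (x : X) : X → ℂ := fun y => (K x y : ℂ)

theorem kf_meas (hK : Measurable (Function.uncurry K)) (x : X) : Measurable (kf K x) :=
  Complex.measurable_ofReal.comp (hK.comp measurable_prodMk_left)

omit [MeasurableSpace X] in
theorem kf_bdd (hC : ∀ x y, |K x y| ≤ C) (x y : X) : ‖kf K x y‖ ≤ C := by
  unfold kf
  rw [Complex.norm_real, Real.norm_eq_abs]
  exact hC x y

variable {K}

theorem kf_memLp (hK : Measurable (Function.uncurry K)) (hC : ∀ x y, |K x y| ≤ C) (x : X) :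
    MemLp (kf K x) 2 ν :=
  MemLp.of_bound (kf_meas K hK x).aestronglyMeasurable C (Eventually.of_forall (kf_bdd K hC x))

/-- the kernel function as an element of `L²` -/
noncomputable def kx (hK : Measurable (Function.uncurry K)) (hC : ∀ x y, |K x y| ≤ C) (x : X) :
    Lp ℂ 2 ν := (kf_memLp ν hK hC x).toLp

/-- the everywhere-defined integral operator -/
noncomputable def A (K : X → X → ℝ) (f : X → ℂ) : X → ℂ := fun x => ∫ y, (K x y : ℂ) * f y ∂ν

theorem A_eq_inner (hK : Measurable (Function.uncurry K)) (hC : ∀ x y, |K x y| ≤ C) (f : Lp ℂ 2 ν)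
    (x : X) : A ν K f x = ⟪kx ν hK hC x, f⟫_ℂ := by
  rw [L2.inner_def]
  unfold A
  apply integral_congr_ae
  filter_upwards [(kf_memLp ν hK hC x).coeFn_toLp] with y hy
  unfold kx
  rw [hy]
  simp only [kf, RCLike.inner_apply, Complex.conj_ofReal]
  ring

theorem norm_kx_le (hK : Measurable (Function.uncurry K)) (hC : ∀ x y, |K x y| ≤ C) (x : X) :
    ‖kx ν hK hC x‖ ^ 2 ≤ C ^ 2 * (ν Set.univ).toReal := by
  have h1 : ‖kx ν hK hC x‖ ^ 2 = ∫ y, ‖kx ν hK hC x y‖ ^ 2 ∂ν := by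
    rw [← inner_self_eq_norm_sq (𝕜 := ℂ), L2.inner_def]
    simp only [inner_self_eq_norm_sq_to_K]
    have : ∀ z : ℝ, RCLike.re ((z : ℂ)) = z := fun z => rfl
    have h2 : (∫ a, ((‖kx ν hK hC x a‖ : ℝ) : ℂ) ^ 2 ∂ν) =
        ((∫ a, ‖kx ν hK hC x a‖ ^ 2 ∂ν : ℝ) : ℂ) := by
      rw [← integral_complex_ofReal]
      congr 1
      funext a
      push_cast
      rfl
    erw [h2]
    rfl
  rw [h1]
  have h2 : ∫ y, ‖kx ν hK hC x y‖ ^ 2 ∂ν ≤ ∫ y, C ^ 2 ∂ν := by
    apply integral_mono_ae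
    · have := (Lp.memLp (kx ν hK hC x)).integrable_norm_pow (p := 2) (by norm_num)
      exact_mod_cast this
    · exact integrable_const _
    · filter_upwards [(kf_memLp ν hK hC x).coeFn_toLp] with y hy
      unfold kx
      rw [hy]
      exact pow_le_pow_left₀ (norm_nonneg _) (kf_bdd K hC x y) 2
  refine h2.trans ?_
  rw [integral_const, smul_eq_mul, mul_comm]
  rfl

theorem A_meas (hK : Measurable (Function.uncurry K)) {f : X → ℂ} (hf : StronglyMeasurable f) :
    StronglyMeasurable (A ν K f) := by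
  unfold A
  have h : StronglyMeasurable (Function.uncurry fun (x y : X) => (K x y : ℂ) * f y) := by
    have h1 : StronglyMeasurable (fun p : X × X => ((K p.1 p.2 : ℝ) : ℂ)) :=
      (Complex.measurable_ofReal.comp hK).stronglyMeasurable
    exact h1.mul (hf.comp_measurable measurable_snd)
  exact h.integral_prod_right

/-- the constant `C √ν(X)` -/
noncomputable def bd (ν : Measure X) (C : ℝ) : ℝ := Real.sqrt (C ^ 2 * (ν Set.univ).toReal)

theorem norm_kx (hK : Measurable (Function.uncurry K)) (hC : ∀ x y, |K x y| ≤ C) (x : X) :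
    ‖kx ν hK hC x‖ ≤ bd ν C := by
  unfold bd
  exact Real.le_sqrt_of_sq_le (norm_kx_le ν hK hC x)

theorem norm_A_le (hK : Measurable (Function.uncurry K)) (hC : ∀ x y, |K x y| ≤ C) (f : Lp ℂ 2 ν)
    (x : X) : ‖A ν K f x‖ ≤ bd ν C * ‖f‖ := by
  rw [A_eq_inner ν hK hC]
  exact (norm_inner_le_norm _ _).trans
    (mul_le_mul_of_nonneg_right (norm_kx ν hK hC x) (norm_nonneg _))

theorem A_memLp (hK : Measurable (Function.uncurry K)) (hC : ∀ x y, |K x y| ≤ C) (f : Lp ℂ 2 ν) :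
    MemLp (A ν K f) 2 ν :=
  MemLp.of_bound (A_meas ν hK (Lp.stronglyMeasurable f)).aestronglyMeasurable (bd ν C * ‖f‖)
    (Eventually.of_forall (norm_A_le ν hK hC f))

/-- the operator on `L²` -/
noncomputable def Tlin (hK : Measurable (Function.uncurry K)) (hC : ∀ x y, |K x y| ≤ C) :
    Lp ℂ 2 ν →ₗ[ℂ] Lp ℂ 2 ν where
  toFun f := (A_memLp ν hK hC f).toLp
  map_add' f g := by
    rw [← MemLp.toLp_add]
    congr 1
    funext x
    rw [Pi.add_apply, A_eq_inner ν hK hC, A_eq_inner ν hK hC, A_eq_inner ν hK hC, inner_add_right]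
  map_smul' c f := by
    rw [RingHom.id_apply, ← MemLp.toLp_const_smul]
    congr 1
    funext x
    rw [Pi.smul_apply, A_eq_inner ν hK hC, A_eq_inner ν hK hC, inner_smul_right, smul_eq_mul]

theorem Tlin_norm (hK : Measurable (Function.uncurry K)) (hC : ∀ x y, |K x y| ≤ C) (f : Lp ℂ 2 ν) :
    ‖Tlin ν hK hC f‖ ≤ (Real.sqrt ((ν Set.univ).toReal) * bd ν C) * ‖f‖ := by
  have h0 : 0 ≤ bd ν C * ‖f‖ := mul_nonneg (Real.sqrt_nonneg _) (norm_nonneg _)
  have h1 : ‖Tlin ν hK hC f‖ ≤ (measureUnivNNReal ν : ℝ) ^ (2 : ℝ≥0∞).toReal⁻¹ * (bd ν C * ‖f‖) := by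
    apply Lp.norm_le_of_ae_bound h0
    filter_upwards [(A_memLp ν hK hC f).coeFn_toLp] with x hx
    have e0 : (Tlin ν hK hC f : X → ℂ) x = A ν K f x := hx
    rw [e0]
    exact norm_A_le ν hK hC f x
  refine h1.trans (le_of_eq ?_)
  rw [Real.sqrt_eq_rpow]
  have e1 : (measureUnivNNReal ν : ℝ) = (ν Set.univ).toReal := rfl
  have e2 : (2 : ℝ≥0∞).toReal⁻¹ = (1 / 2 : ℝ) := by norm_num
  rw [e1, e2]
  ring

/-- the operator on `L²` -/
noncomputable def T (hK : Measurable (Function.uncurry K)) (hC : ∀ x y, |K x y| ≤ C) :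
    Lp ℂ 2 ν →L[ℂ] Lp ℂ 2 ν := (Tlin ν hK hC).mkContinuous _ (Tlin_norm ν hK hC)

theorem T_coe (hK : Measurable (Function.uncurry K)) (hC : ∀ x y, |K x y| ≤ C) (f : Lp ℂ 2 ν) :
    T ν hK hC f =ᵐ[ν] A ν K f := (A_memLp ν hK hC f).coeFn_toLp

theorem inner_T (hK : Measurable (Function.uncurry K)) (hC : ∀ x y, |K x y| ≤ C) (f g : Lp ℂ 2 ν) :
    ⟪f, T ν hK hC g⟫_ℂ = ∫ x, A ν K g x * (starRingEnd ℂ) (f x) ∂ν := by
  rw [L2.inner_def]
  apply integral_congr_ae
  filter_upwards [T_coe ν hK hC g] with x hx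
  rw [hx, RCLike.inner_apply]

theorem lp_integrable (f : Lp ℂ 2 ν) : Integrable f ν :=
  (Lp.memLp f).integrable (by norm_num)

/-- symmetry -/
theorem T_symm (hK : Measurable (Function.uncurry K)) (hC : ∀ x y, |K x y| ≤ C)
    (hsymm : ∀ x y, K x y = K y x) : (T ν hK hC : Lp ℂ 2 ν →ₗ[ℂ] Lp ℂ 2 ν).IsSymmetric := by
  intro f g
  show ⟪T ν hK hC f, g⟫_ℂ = ⟪f, T ν hK hC g⟫_ℂ
  rw [← inner_conj_symm, inner_T, inner_T, ← integral_conj]
  have hf := lp_integrable ν f
  have hg := lp_integrable ν g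
  have hC0 : ∀ x y : X, ‖(K x y : ℂ)‖ ≤ C := fun x y => kf_bdd K hC x y
  have e1 : ∀ x, (starRingEnd ℂ) (A ν K f x * (starRingEnd ℂ) (g x)) =
      ∫ y, (K x y : ℂ) * ((starRingEnd ℂ) (f y) * g x) ∂ν := by
    intro x
    unfold A
    rw [map_mul, Complex.conj_conj, ← integral_conj, ← integral_mul_const]
    congr 1
    funext y
    rw [map_mul, Complex.conj_ofReal]
    ring
  have e2 : ∀ x, A ν K g x * (starRingEnd ℂ) (f x) =
      ∫ y, (K y x : ℂ) * ((starRingEnd ℂ) (f x) * g y) ∂ν := by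
    intro x
    unfold A
    rw [← integral_mul_const]
    congr 1
    funext y
    rw [hsymm x y]
    ring
  simp_rw [e1, e2]
  rw [integral_integral_swap]
  -- integrability on the product
  have h1 : Integrable (fun p : X × X => g p.1 * (starRingEnd ℂ) (f p.2)) (ν.prod ν) :=
    hg.mul_prod ((Complex.conjCLE : ℂ →L[ℝ] ℂ).integrable_comp hf)
  have h2 : Integrable (fun p : X × X => (K p.1 p.2 : ℂ) * (g p.1 * (starRingEnd ℂ) (f p.2)))
      (ν.prod ν) := by
    refine h1.bdd_mul (c := C) ?_ ?_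
    · exact ((Complex.measurable_ofReal.comp hK)).aestronglyMeasurable
    · exact Eventually.of_forall fun p => hC0 p.1 p.2
  refine h2.congr (Eventually.of_forall fun p => ?_)
  simp only [Function.uncurry]
  ring

end Kernel

end Pool.Agent.N789.HS
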