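import Pool.Agent.N789.HS

set_option autoImplicit false

open MeasureTheory Filter Topology
open scoped ENNReal InnerProductSpace

namespace Pool.Agent.N789.HS

section Abstract

variable {H : Type*} [NormedAddCommGroup H] [InnerProductSpace ℂ H] [CompleteSpace H]

/-- operators with bounded Hilbert-Schmidt sums are compact -/
theorem compact_of_hs {ι : Type*} (b : HilbertBasis ι ℂ H) (T : H →L[ℂ] H) (B : ℝ)
    (hB : ∀ s : Finset ι, ∑ i ∈ s, ‖T (b i)‖ ^ 2 ≤ B) : IsCompactOperator T := by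
  have hs : Summable fun i => ‖T (b i)‖ ^ 2 :=
    summable_of_sum_le (fun i => sq_nonneg _) hB
  obtain ⟨S, hS⟩ : ∃ S, S = ∑' i, ‖T (b i)‖ ^ 2 := ⟨_, rfl⟩
  have hSum : HasSum (fun i => ‖T (b i)‖ ^ 2) S := by rw [hS]; exact hs.hasSum
  let F : Finset ι → H →L[ℂ] H := fun s => ∑ i ∈ s, (innerSL ℂ (b i)).smulRight (T (b i))
  have hF : ∀ s f, F s f = ∑ i ∈ s, ⟪b i, f⟫_ℂ • T (b i) := by
    intro s f
    simp [F]
  have hFc : ∀ s, IsCompactOperator (F s) := by
    intro s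
    have : F s ∈ compactOperator (RingHom.id ℂ) H H := by
      apply Submodule.sum_mem
      intro i _
      show IsCompactOperator _
      have h1 : IsCompactOperator (innerSL ℂ (b i) : H →L[ℂ] ℂ) :=
        isCompactOperator_of_locallyCompactSpace_dom _
      exact h1.clm_comp ((ContinuousLinearMap.id ℂ ℂ).smulRight (T (b i)))
    exact this
  have key : ∀ s f, ‖T f - F s f‖ ≤ Real.sqrt (S - ∑ i ∈ s, ‖T (b i)‖ ^ 2) * ‖f‖ := by
    classical
    intro s f
    have h1 : HasSum (fun i => ⟪b i, f⟫_ℂ • T (b i)) (T f) := by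
      have := (b.hasSum_repr f).mapL T
      simpa [b.repr_apply_apply] using this
    have h2 : Tendsto (fun t : Finset ι => ‖(∑ i ∈ t, ⟪b i, f⟫_ℂ • T (b i)) - F s f‖) atTop
        (𝓝 ‖T f - F s f‖) := (h1.sub_const _).norm
    refine le_of_tendsto h2 ?_
    filter_upwards [eventually_ge_atTop s] with t ht
    rw [hF, ← Finset.sum_sdiff (show s ⊆ t from ht), add_sub_cancel_right]
    have h3 : ∑ i ∈ t \ s, ‖⟪b i, f⟫_ℂ‖ ^ 2 ≤ ‖f‖ ^ 2 := b.orthonormal.sum_inner_products_le f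
    have h4 : ∑ i ∈ t \ s, ‖T (b i)‖ ^ 2 ≤ S - ∑ i ∈ s, ‖T (b i)‖ ^ 2 := by
      have := sum_le_hasSum t (fun i _ => sq_nonneg ‖T (b i)‖) hSum
      rw [← Finset.sum_sdiff (show s ⊆ t from ht)] at this
      linarith
    calc ‖∑ i ∈ t \ s, ⟪b i, f⟫_ℂ • T (b i)‖ ≤ ∑ i ∈ t \ s, ‖⟪b i, f⟫_ℂ‖ * ‖T (b i)‖ := by
          refine (norm_sum_le _ _).trans (le_of_eq ?_)
          exact Finset.sum_congr rfl fun i _ => norm_smul _ _
      _ ≤ Real.sqrt (∑ i ∈ t \ s, ‖⟪b i, f⟫_ℂ‖ ^ 2) * Real.sqrt (∑ i ∈ t \ s, ‖T (b i)‖ ^ 2) :=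
          Real.sum_mul_le_sqrt_mul_sqrt _ _ _
      _ ≤ ‖f‖ * Real.sqrt (S - ∑ i ∈ s, ‖T (b i)‖ ^ 2) := by
          apply mul_le_mul _ (Real.sqrt_le_sqrt h4) (Real.sqrt_nonneg _) (norm_nonneg _)
          rw [← Real.sqrt_sq (norm_nonneg f)]
          exact Real.sqrt_le_sqrt h3
      _ = _ := mul_comm _ _
  have hlim : Tendsto F atTop (𝓝 T) := by
    rw [tendsto_iff_norm_sub_tendsto_zero]
    have h1 : ∀ s, ‖F s - T‖ ≤ Real.sqrt (S - ∑ i ∈ s, ‖T (b i)‖ ^ 2) := by
      intro s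
      refine ContinuousLinearMap.opNorm_le_bound _ (Real.sqrt_nonneg _) fun f => ?_
      rw [show (F s - T) f = F s f - T f from rfl, norm_sub_rev]
      exact key s f
    have h2 : Tendsto (fun s : Finset ι => Real.sqrt (S - ∑ i ∈ s, ‖T (b i)‖ ^ 2)) atTop (𝓝 0) := by
      have h3 : Tendsto (fun s : Finset ι => S - ∑ i ∈ s, ‖T (b i)‖ ^ 2) atTop (𝓝 (S - S)) :=
        tendsto_const_nhds.sub hSum
      rw [sub_self] at h3
      have := (Real.continuous_sqrt.tendsto 0).comp h3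
      rwa [Real.sqrt_zero] at this
    exact squeeze_zero (fun _ => norm_nonneg _) h1 h2
  exact isCompactOperator_of_tendsto hlim (Eventually.of_forall hFc)

end Abstract

variable {X : Type*} [MeasurableSpace X] (ν : Measure X) [IsFiniteMeasure ν] {K : X → X → ℝ} {C : ℝ}

theorem norm_sq_T (hK : Measurable (Function.uncurry K)) (hC : ∀ x y, |K x y| ≤ C) (f : Lp ℂ 2 ν) :
    ‖T ν hK hC f‖ ^ 2 = ∫ x, ‖A ν K f x‖ ^ 2 ∂ν := by
  have h1 := inner_self_eq_norm_sq_to_K (𝕜 := ℂ) (T ν hK hC f)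
  rw [L2.inner_def] at h1
  have h2 : (∫ a, ⟪T ν hK hC f a, T ν hK hC f a⟫_ℂ ∂ν) = ((∫ x, ‖A ν K f x‖ ^ 2 ∂ν : ℝ) : ℂ) := by
    rw [← integral_complex_ofReal]
    apply integral_congr_ae
    filter_upwards [T_coe ν hK hC f] with x hx
    rw [hx, inner_self_eq_norm_sq_to_K]
    push_cast
    rfl
  rw [h2] at h1
  have h3 : ((∫ x, ‖A ν K f x‖ ^ 2 ∂ν : ℝ) : ℂ) = ((‖T ν hK hC f‖ ^ 2 : ℝ) : ℂ) := by
    rw [h1]; push_cast; rfl
  exact (Complex.ofReal_injective h3).symm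

theorem T_compact (hK : Measurable (Function.uncurry K)) (hC : ∀ x y, |K x y| ≤ C) :
    IsCompactOperator (T ν hK hC) := by
  obtain ⟨w, b, -⟩ := exists_hilbertBasis ℂ (Lp ℂ 2 ν)
  refine compact_of_hs b _ ((bd ν C) ^ 2 * (ν Set.univ).toReal) fun s => ?_
  have hint : ∀ f : Lp ℂ 2 ν, Integrable (fun x => ‖A ν K f x‖ ^ 2) ν := by
    intro f
    have := (A_memLp ν hK hC f).integrable_norm_pow (p := 2) (by norm_num)
    exact_mod_cast this
  simp_rw [norm_sq_T ν hK hC]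
  rw [← integral_finsetSum _ (fun i _ => hint _)]
  have h1 : ∀ x, ∑ i ∈ s, ‖A ν K (b i) x‖ ^ 2 ≤ (bd ν C) ^ 2 := by
    intro x
    have h2 : ∑ i ∈ s, ‖⟪b i, kx ν hK hC x⟫_ℂ‖ ^ 2 ≤ ‖kx ν hK hC x‖ ^ 2 :=
      b.orthonormal.sum_inner_products_le _
    have h3 : ∑ i ∈ s, ‖A ν K (b i) x‖ ^ 2 = ∑ i ∈ s, ‖⟪b i, kx ν hK hC x⟫_ℂ‖ ^ 2 := by
      refine Finset.sum_congr rfl fun i _ => ?_
      rw [A_eq_inner ν hK hC, norm_inner_symm]
    rw [h3]
    exact h2.trans (pow_le_pow_left₀ (norm_nonneg _) (norm_kx ν hK hC x) 2)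
  calc ∫ x, ∑ i ∈ s, ‖A ν K (b i) x‖ ^ 2 ∂ν ≤ ∫ _x, (bd ν C) ^ 2 ∂ν :=
        integral_mono (integrable_finsetSum _ fun i _ => hint _) (integrable_const _) h1
    _ = _ := by
        rw [integral_const, smul_eq_mul, mul_comm]
        rfl

/-- the everywhere-defined function attached to an eigenvector -/
theorem exists_eigen (ν : Measure X) [IsFiniteMeasure ν] (K : X → X → ℝ) (C : ℝ)
    (hK : Measurable (Function.uncurry K)) (hC : ∀ x y, |K x y| ≤ C) (hsymm : ∀ x y, K x y = K y x)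
    (hne : ∃ g : X → ℝ, Measurable g ∧ (∃ M, ∀ x, |g x| ≤ M) ∧
      ∫ x, (∫ y, K x y * g y ∂ν) * g x ∂ν ≠ 0) :
    ∃ κ : ℝ, κ ≠ 0 ∧ FiniteDimensional ℂ (eigSub ν K C hK hC (κ : ℂ)) ∧
      ∃ f ∈ eigSub ν K C hK hC (κ : ℂ), f ≠ 0 := by
  have hcomp := T_compact ν hK hC
  have hsym := T_symm ν hK hC hsymm
  -- `T ≠ 0`
  have hT0 : T ν hK hC ≠ 0 := by
    intro h0
    obtain ⟨g, hg, ⟨M, hM⟩, hne⟩ := hne
    have hgm : MemLp (fun x => (g x : ℂ)) 2 ν :=
      MemLp.of_bound (Complex.measurable_ofReal.comp hg).aestronglyMeasurable M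
        (Eventually.of_forall fun x => by
          rw [Complex.norm_real, Real.norm_eq_abs]; exact hM x)
    have h1 : ⟪hgm.toLp, T ν hK hC hgm.toLp⟫_ℂ = 0 := by rw [h0]; simp
    rw [inner_T] at h1
    apply hne
    have h2 : (∫ x, A ν K hgm.toLp x * (starRingEnd ℂ) ((hgm.toLp : X → ℂ) x) ∂ν) =
        ((∫ x, (∫ y, K x y * g y ∂ν) * g x ∂ν : ℝ) : ℂ) := by
      rw [← integral_complex_ofReal]
      apply integral_congr_ae
      filter_upwards [hgm.coeFn_toLp] with x hx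
      rw [hx, Complex.conj_ofReal]
      have h3 : A ν K hgm.toLp x = ((∫ y, K x y * g y ∂ν : ℝ) : ℂ) := by
        unfold A
        rw [← integral_complex_ofReal]
        apply integral_congr_ae
        filter_upwards [hgm.coeFn_toLp] with y hy
        rw [hy]
        push_cast
        rfl
      rw [h3]
      push_cast
      rfl
    rw [h2] at h1
    exact_mod_cast h1
  -- an eigenvalue
  obtain ⟨μ, hμ, hμ0⟩ : ∃ μ, Module.End.HasEigenvalue (T ν hK hC : Module.End ℂ (Lp ℂ 2 ν)) μ ∧ μ ≠ 0 := by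
    by_contra hcon
    push Not at hcon
    exact hT0 ((ContinuousLinearMap.eq_zero_of_forall_hasEigenvalue_eq_zero hcomp hsym).1 hcon)
  have hconj : (starRingEnd ℂ) μ = μ := hsym.conj_eigenvalue_eq_self hμ
  obtain ⟨κ, hκ⟩ : ∃ κ : ℝ, (κ : ℂ) = μ := ⟨μ.re, Complex.conj_eq_iff_re.1 hconj⟩
  have hκ0 : κ ≠ 0 := by
    rintro rfl
    apply hμ0
    rw [← hκ]; simp
  have hfd := ContinuousLinearMap.finite_dimensional_eigenspace hcomp μ hμ0
  refine ⟨κ, hκ0, ?_, ?_⟩
  · -- the map from bounded eigenfunctions to the eigenspace is injective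
    have hmem : ∀ f ∈ eigSub ν K C hK hC (κ : ℂ), MemLp f 2 ν := by
      rintro f ⟨hf, ⟨M, hM⟩, -⟩
      exact MemLp.of_bound hf.aestronglyMeasurable M (Eventually.of_forall hM)
    have hA : ∀ f (hf : f ∈ eigSub ν K C hK hC (κ : ℂ)) (x : X),
        A ν K ((hmem f hf).toLp : Lp ℂ 2 ν) x = κ * f x := by
      intro f hf x
      rw [hf.2.2 x]
      unfold A
      apply integral_congr_ae
      filter_upwards [(hmem f hf).coeFn_toLp] with y hy
      rw [hy]
    let Φ : eigSub ν K C hK hC (κ : ℂ) →ₗ[ℂ]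
        Module.End.eigenspace (T ν hK hC : Module.End ℂ (Lp ℂ 2 ν)) μ :=
      { toFun := fun f => ⟨(hmem f.1 f.2).toLp, by
          rw [Module.End.mem_eigenspace_iff]
          show T ν hK hC (hmem f.1 f.2).toLp = μ • (hmem f.1 f.2).toLp
          rw [← MemLp.toLp_const_smul]
          apply Lp.ext
          filter_upwards [T_coe ν hK hC (hmem f.1 f.2).toLp,
            ((hmem f.1 f.2).const_smul μ).coeFn_toLp] with x hx hx2
          rw [hx, hx2, hA f.1 f.2, Pi.smul_apply, smul_eq_mul]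
          exact congrArg (fun z : ℂ => z * (f : X → ℂ) x) hκ⟩
        map_add' := fun f g => by
          apply Subtype.ext
          exact MemLp.toLp_add (hmem f.1 f.2) (hmem g.1 g.2)
        map_smul' := fun c f => by
          apply Subtype.ext
          exact MemLp.toLp_const_smul c (hmem f.1 f.2) }
    have hinj : Function.Injective Φ := by
      intro f g hfg
      apply Subtype.ext
      have h1 : (hmem f.1 f.2).toLp = (hmem g.1 g.2).toLp := congrArg Subtype.val hfg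
      funext x
      have h2 := hA f.1 f.2 x
      have h3 := hA g.1 g.2 x
      rw [h1, h3] at h2
      exact (mul_left_cancel₀ (Complex.ofReal_ne_zero.2 hκ0) h2).symm
    exact Module.Finite.of_injective Φ hinj
  · obtain ⟨v, hv, hv0⟩ := hμ.exists_hasEigenvector
    rw [Module.End.mem_eigenspace_iff] at hv
    have hv' : T ν hK hC v = μ • v := hv
    have hae : (fun x => μ * v x) =ᵐ[ν] A ν K v := by
      have h1 := T_coe ν hK hC v
      rw [hv'] at h1
      filter_upwards [h1, Lp.coeFn_smul μ v] with x hx hx2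
      rw [← hx, hx2, Pi.smul_apply, smul_eq_mul]
    refine ⟨fun x => μ⁻¹ * A ν K v x, ⟨?_, ⟨‖μ⁻¹‖ * (bd ν C * ‖v‖), fun x => ?_⟩, fun x => ?_⟩, ?_⟩
    · exact (A_meas ν hK (Lp.stronglyMeasurable v)).measurable.const_mul _
    · rw [norm_mul]
      exact mul_le_mul_of_nonneg_left (norm_A_le ν hK hC v x) (norm_nonneg _)
    · rw [hκ, mul_inv_cancel_left₀ hμ0]
      unfold A
      apply integral_congr_ae
      filter_upwards [hae] with y hy
      have : μ⁻¹ * (∫ z, (K y z : ℂ) * v z ∂ν) = v y := by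
        have h2 : μ * v y = ∫ z, (K y z : ℂ) * v z ∂ν := hy
        rw [← h2, inv_mul_cancel_left₀ hμ0]
      rw [this]
    · intro h0
      apply hv0
      apply Lp.ext
      filter_upwards [hae, Lp.coeFn_zero ℂ 2 ν] with x hx hx2
      rw [hx2, Pi.zero_apply]
      have h3 := congrFun h0 x
      simp only [Pi.zero_apply] at h3
      have h4 : A ν K v x = 0 := by
        rcases mul_eq_zero.1 h3 with h | h
        · exact absurd h (inv_ne_zero hμ0)
        · exact h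
      have h5 : μ * v x = 0 := by rw [← h4]; exact hx
      rcases mul_eq_zero.1 h5 with h | h
      · exact absurd h hμ0
      · exact h

end Pool.Agent.N789.HS
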